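import Pool.Agent.Helper60.BE.T25
import Pool.Agent.Helper60.BE.T36

set_option autoImplicit false

namespace Pool.Agent.Results.MP_16b0ee_an.BrennanExponent

/-- For real `t` the circle means of `|ψ'| ^ t` over the class Sigma grow at most like every power
`b` of `R² / (R² - 1)` above the piecewise linear function through `(2, 1)`, `(1, 133/400)`,
`(0, 0)`, `(-1, 353/1250)`, `(-7/5, 533/1000)`, `(-2, 201/200)` with slope `1` on the right of `2`
and slope `-1` on the left of `-2`, uniformly in the class. At `t = -2` the power `1` is Brennan's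
conjecture, at `t = 1` the power `1/4` is the conjecture of Carleson and Jones. -/
theorem result :
    ∀ t b : ℝ, t - 1 < b → (267 * t - 134) / 400 < b → 133 / 400 * t < b →
      -(353 / 1250) * t < b → -(6265 * t + 3441) / 10000 < b → -(472 * t + 341) / 600 < b →
      -t - 199 / 200 < b →
      ∃ C : ℝ, ∀ ψ : ℂ → ℂ,
      DifferentiableOn ℂ ψ {z : ℂ | 1 < ‖z‖} →
      Set.InjOn ψ {z : ℂ | 1 < ‖z‖} →
      (∃ c : ℂ, Filter.Tendsto (fun z => ψ z - z) (Bornology.cobounded ℂ) (nhds c)) →
      ∀ R : ℝ, 1 < R →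
        (2 * Real.pi)⁻¹ * (∫ θ in (0:ℝ)..(2 * Real.pi),
          ‖deriv ψ (R * Complex.exp (θ * Complex.I))‖ ^ t) ≤
          C * (R ^ 2 / (R ^ 2 - 1)) ^ b :=
  Pool.Agent.Helper58.BF.spectrum Pool.Agent.Helper9.CKD.E3.means

end Pool.Agent.Results.MP_16b0ee_an.BrennanExponent
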