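import Pool.Agent.Helper24.K6.G21
import Pool.Agent.Helper24.K6.G23


set_option autoImplicit false

namespace Pool.Agent.Results.MP_16b0ee_an.NearRay

/-- The universal integral means spectrum near the ray `[2, ∞)`, in all complex directions. There
is a constant `q > 0` such that for every `ε > 0` there is `d > 0` with: if
`w = max (2 - |t|) 0 < d` and `|arg t| < d`, then the circle means of `|exp (t h)|`, `h = log ψ'`,
over the class Sigma are at most a constant (independent of the function and of the radius) times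
the power `|t| - 1 + (1 / 4 - q) w² + ε (arg t)²` of `R² / (R² - 1)`, and for every
`s < |t| - 1` some function of the class has means at least a constant times the power `s`. -/
theorem result :
    ∃ q : ℝ, 0 < q ∧ ∀ ε : ℝ, 0 < ε → ∃ d : ℝ, 0 < d ∧
      ∀ (t : ℂ) (w : ℝ), w = max (2 - ‖t‖) 0 → w < d → |t.arg| < d →
      (∃ C : ℝ, ∀ ψ h : ℂ → ℂ,
        DifferentiableOn ℂ ψ {z : ℂ | 1 < ‖z‖} →
        Set.InjOn ψ {z : ℂ | 1 < ‖z‖} →
        (∃ b : ℂ, Filter.Tendsto (fun z => ψ z - z) (Bornology.cobounded ℂ) (nhds b)) →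
        DifferentiableOn ℂ h {z : ℂ | 1 < ‖z‖} →
        (∀ z : ℂ, 1 < ‖z‖ → Complex.exp (h z) = deriv ψ z) →
        Filter.Tendsto h (Bornology.cobounded ℂ) (nhds 0) →
        ∀ R : ℝ, 1 < R →
          (2 * Real.pi)⁻¹ * (∫ θ in (0:ℝ)..(2 * Real.pi),
            ‖Complex.exp (t * h (R * Complex.exp (θ * Complex.I)))‖) ≤
            C * (R ^ 2 / (R ^ 2 - 1)) ^ (‖t‖ - 1 + (1 / 4 - q) * w ^ 2 + ε * t.arg ^ 2)) ∧
      ∀ s : ℝ, s < ‖t‖ - 1 → ∃ ψ h : ℂ → ℂ,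
        DifferentiableOn ℂ ψ {z : ℂ | 1 < ‖z‖} ∧
        Set.InjOn ψ {z : ℂ | 1 < ‖z‖} ∧
        (∃ b : ℂ, Filter.Tendsto (fun z => ψ z - z) (Bornology.cobounded ℂ) (nhds b)) ∧
        DifferentiableOn ℂ h {z : ℂ | 1 < ‖z‖} ∧
        (∀ z : ℂ, 1 < ‖z‖ → Complex.exp (h z) = deriv ψ z) ∧
        Filter.Tendsto h (Bornology.cobounded ℂ) (nhds 0) ∧
        ∃ c : ℝ, 0 < c ∧ ∀ R : ℝ, 1 < R →
          c * (R ^ 2 / (R ^ 2 - 1)) ^ s ≤
            (2 * Real.pi)⁻¹ * (∫ θ in (0:ℝ)..(2 * Real.pi),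
              ‖Complex.exp (t * h (R * Complex.exp (θ * Complex.I)))‖) := by
  obtain ⟨q, hq, h⟩ := Pool.Agent.Helper5.TR.shape6 Pool.Agent.Helper26.G4.main4
    Pool.Agent.Helper12.G6.main6
  refine ⟨q, hq, fun ε hε => ?_⟩
  obtain ⟨d, hd, h⟩ := h ε hε
  exact ⟨d, hd, fun t w hw hwd hφ => h t w hw hwd hφ⟩

end Pool.Agent.Results.MP_16b0ee_an.NearRay
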