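import Pool.Agent.Helper60.M16.G06
import Pool.Agent.Helper60.M16.G43


set_option autoImplicit false

namespace Pool.Agent.Results.MP_16b0ee_an.StrongMarshall73

open Pool.Agent.M16.Helper94.HR2 Pool.Agent.M16.Helper22.Half

/-- The inequality of the strong Marshall conjecture for the whole class Sigma and every exponent
`a ≤ 73/100`, with one constant, uniformly in `R > 1`. -/
theorem result :
    ∃ C : ℝ, ∀ a : ℝ, a ≤ 73 / 100 → ∀ R : ℝ, 1 < R → ∀ ψ h : ℂ → ℂ,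
      DifferentiableOn ℂ ψ {z : ℂ | 1 < ‖z‖} →
      Set.InjOn ψ {z : ℂ | 1 < ‖z‖} →
      (∃ b : ℂ, Filter.Tendsto (fun z => ψ z - z) (Bornology.cobounded ℂ) (nhds b)) →
      DifferentiableOn ℂ h {z : ℂ | 1 < ‖z‖} →
      (∀ z : ℂ, 1 < ‖z‖ → Complex.exp (h z) = deriv ψ z) →
      Filter.Tendsto h (Bornology.cobounded ℂ) (nhds 0) →
      (1 / (2 * Real.pi)) * ∫ θ in (0:ℝ)..(2 * Real.pi),
        Real.exp (a * ‖h ((R : ℂ) * Complex.exp ((θ : ℂ) * Complex.I))‖ ^ 2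
          / Real.log (R ^ 2 / (R ^ 2 - 1))) ≤ C :=
  final_sigma Pool.Agent.M16.Helper12.HR2.D.mInt_73

end Pool.Agent.Results.MP_16b0ee_an.StrongMarshall73
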